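import Mathlib

set_option autoImplicit false

namespace Pool.Agent.Results.MP_9c4245_co.Unbounded

open Finset

open Classical in
/-- `G` is a `k`-threshold graph. -/
def IsKThr {V : Type} (G : SimpleGraph V) (k : ℕ) : Prop :=
  ∃ θ : Fin k → ℝ, StrictMono θ ∧ ∃ r : V → ℝ, ∀ v w, v ≠ w →
    (G.Adj v w ↔ Odd (univ.filter fun i => θ i ≤ r v + r w).card)

/-- The edge set of `G` is the union of the edge sets of `k` threshold graphs. -/
def ThrCover {V : Type} (G : SimpleGraph V) (k : ℕ) : Prop :=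
  ∃ T : Fin k → SimpleGraph V, (∀ i, IsKThr (T i) 1) ∧ G = ⨆ i, T i

lemma count {U W : Type} [Fintype U] [Fintype W] (G : SimpleGraph (U ⊕ W)) (k d : ℕ) (hd : 0 < d)
    (h : IsKThr G k) (hs : ∀ u u', u ≠ u' → ∃ S : Finset W, d ≤ S.card ∧
      ∀ w ∈ S, ¬ (G.Adj (.inl u) (.inr w) ↔ G.Adj (.inl u') (.inr w))) :
    Fintype.card U ≤ k * Fintype.card W / d + 1 := by
  classical
  obtain ⟨θ, _, r, hr⟩ := h
  let c : U → W → ℕ := fun u w => (univ.filter fun i => θ i ≤ r (.inl u) + r (.inr w)).card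
  let f : U → ℕ := fun u => ∑ w, c u w
  have key : ∀ u u', u ≠ u' → r (.inl u) ≤ r (.inl u') → f u + d ≤ f u' := by
    intro u u' hne hle
    obtain ⟨S, h1, h2⟩ := hs u u' hne
    have : S.card = ∑ w, if w ∈ S then 1 else 0 := by simp
    refine (Nat.add_le_add_left (h1.trans this.le) _).trans ?_
    simp only [f]
    rw [← sum_add_distrib]
    refine sum_le_sum fun w _ => ?_
    have h3 : c u w ≤ c u' w := card_le_card fun i hi => by
      simp only [mem_filter, mem_univ, true_and] at hi ⊢; linarith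
    split_ifs with hw
    · have := h2 w hw
      rw [hr _ _ (by simp), hr _ _ (by simp)] at this
      have h4 : c u w ≠ c u' w := fun e => this (by simp only [c] at e; rw [e])
      omega
    · exact h3
  have hb : ∀ u, f u ≤ k * Fintype.card W := fun u => by
    have := sum_le_card_nsmul univ (c u) k (fun w _ => (card_filter_le _ _).trans (by simp))
    simpa [mul_comm] using this
  have := Fintype.card_le_of_injective
    (fun u => (⟨f u / d, Nat.lt_succ_of_le (Nat.div_le_div_right (hb u))⟩ :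
      Fin (k * Fintype.card W / d + 1))) (fun u u' e => by
    by_contra hne
    have e : f u / d = f u' / d := congrArg Fin.val e
    rcases le_total (r (.inl u)) (r (.inl u')) with h | h
    · have := Nat.div_le_div_right (c := d) (key u u' hne h)
      rw [Nat.add_div_right _ hd] at this; omega
    · have := Nat.div_le_div_right (c := d) (key u' u (Ne.symm hne) h)
      rw [Nat.add_div_right _ hd] at this; omega)
  simpa using this

def thr {V : Type} (ρ : V → ℤ) : SimpleGraph V where
  Adj v w := v ≠ w ∧ 1 ≤ ρ v + ρ w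
  symm := ⟨fun _ _ h => ⟨h.1.symm, by have := h.2; omega⟩⟩
  loopless := ⟨fun _ h => h.1 rfl⟩

lemma thr_one {V : Type} (ρ : V → ℤ) : IsKThr (thr ρ) 1 := by
  refine ⟨fun _ => 1, Subsingleton.strictMono _, fun v => ρ v, fun v w hne => ?_⟩
  by_cases h : 1 ≤ ρ v + ρ w
  · have h' : (1 : ℝ) ≤ ρ v + ρ w := by exact_mod_cast h
    simp [thr, hne, h, h']
  · have h' : ¬ (1 : ℝ) ≤ ρ v + ρ w := by exact_mod_cast h
    simp [thr, h, h']

abbrev VV (m : ℕ) := (Fin m × Fin m) ⊕ (Fin (2 * m) × Fin (2 * m))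

def rho (m : ℕ) (i : Fin 2) : VV m → ℤ :=
  Sum.elim (fun u => -(((if i = 0 then u.1 else u.2).1 : ℤ) + m))
    (fun w => ((if i = 0 then w.1 else w.2).1 : ℤ) + 1)

def HH (m : ℕ) : SimpleGraph (VV m) := ⨆ i, thr (rho m i)

lemma HH_adj (m : ℕ) (u : Fin m × Fin m) (w : Fin (2 * m) × Fin (2 * m)) :
    (HH m).Adj (.inl u) (.inr w) ↔ u.1.1 + m ≤ w.1.1 ∨ u.2.1 + m ≤ w.2.1 := by
  simp only [HH, SimpleGraph.iSup_adj, Fin.exists_fin_two, thr, rho]
  simp
  omega

lemma sep (m : ℕ) (u u' : Fin m × Fin m) (h : u ≠ u') :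
    ∃ S : Finset (Fin (2 * m) × Fin (2 * m)), m ≤ S.card ∧
      ∀ w ∈ S, ¬ ((HH m).Adj (.inl u) (.inr w) ↔ (HH m).Adj (.inl u') (.inr w)) := by
  have e : Function.Injective (Fin.castLE (show m ≤ 2 * m by omega)) := Fin.castLE_injective _
  by_cases h1 : u.1 = u'.1
  · have h2 : u.2.1 ≠ u'.2.1 := fun e => h (Prod.ext h1 (Fin.ext e))
    refine ⟨univ.image fun t : Fin m => (Fin.castLE (by omega) t,
      ⟨min u.2.1 u'.2.1 + m, by have := u.2.2; omega⟩), ?_, ?_⟩
    · rw [card_image_of_injective _ (fun a b hab => e (congrArg Prod.fst hab))]; simp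
    · intro w hw
      obtain ⟨t, _, rfl⟩ := mem_image.mp hw
      have := t.2
      simp only [HH_adj, Fin.val_castLE]
      omega
  · have h2 : u.1.1 ≠ u'.1.1 := fun e => h1 (Fin.ext e)
    refine ⟨univ.image fun t : Fin m => (⟨min u.1.1 u'.1.1 + m, by have := u.1.2; omega⟩,
      Fin.castLE (by omega) t), ?_, ?_⟩
    · rw [card_image_of_injective _ (fun a b hab => e (congrArg Prod.snd hab))]; simp
    · intro w hw
      obtain ⟨t, _, rfl⟩ := mem_image.mp hw
      have := t.2
      simp only [HH_adj, Fin.val_castLE]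
      omega

lemma arith (m k : ℕ) (hm : 4 * k + 2 ≤ m) (h : m * m ≤ k * (2 * m * (2 * m)) / m + 1) : False := by
  rw [show k * (2 * m * (2 * m)) = (4 * k * m) * m by ring, Nat.mul_div_cancel _ (by omega)] at h
  nlinarith

/-- For every `C` there is a finite graph whose complement has threshold dimension exactly `2`
and which is not `k`-threshold for any `k ≤ C`. -/
theorem result (C : ℕ) : ∃ (V : Type) (_ : Finite V) (G : SimpleGraph V),
    IsLeast {k | ThrCover Gᶜ k} 2 ∧ ∀ k ≤ C, ¬ IsKThr G k := by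
  set m := 4 * C + 6 with hm
  refine ⟨VV m, inferInstance, (HH m)ᶜ, ⟨⟨_, fun i => thr_one (rho m i), compl_compl _⟩, ?_⟩, ?_⟩
  · rintro k ⟨T, h1, h2⟩
    rw [compl_compl] at h2
    by_contra hk
    have h3 : IsKThr (HH m) 1 := by
      obtain rfl | rfl : k = 0 ∨ k = 1 := by omega
      · have : HH m = thr fun _ => 0 := by
          rw [h2]; ext a b; simp [thr]
        rw [this]; exact thr_one _
      · have : HH m = T 0 := by rw [h2]; simp
        rw [this]; exact h1 0
    have := count _ 1 m (by omega) h3 (sep m)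
    exact arith m 1 (by omega) (by simpa using this)
  · intro k hk h
    have := count _ k m (by omega) h (fun u u' hne => by
      obtain ⟨S, a, b⟩ := sep m u u' hne
      refine ⟨S, a, fun w hw hh => b w hw ?_⟩
      simpa [not_iff_not] using hh)
    exact arith m k (by omega) (by simpa using this)

end Pool.Agent.Results.MP_9c4245_co.Unbounded
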